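import Mathlib
import Pool.Agent.X203.NNI

open Filter Topology MeasureTheory
open scoped ENNReal

namespace Pool.Agent.Results.MP_c30670_an.NonnegBasic

open Pool.Agent.X203.NN

/-- `(f n)` is a basic sequence with basis constant at most `K`: the vectors are nonzero, every
vector of the closed linear span has exactly one norm-convergent expansion, and all partial sums
of a convergent expansion have norm at most `K` times the norm of its sum. -/
def IsBasicWith {E : Type*} [NormedAddCommGroup E] [NormedSpace ℝ E] (K : ℝ) (f : ℕ → E) : Prop :=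
  (∀ n, f n ≠ 0) ∧
  (∀ x ∈ closure (Submodule.span ℝ (Set.range f) : Set E),
    ∃! a : ℕ → ℝ, Tendsto (fun n => ∑ i ∈ Finset.range n, a i • f i) atTop (𝓝 x)) ∧
  ∀ (a : ℕ → ℝ) (x : E), Tendsto (fun n => ∑ i ∈ Finset.range n, a i • f i) atTop (𝓝 x) →
    ∀ N, ‖∑ i ∈ Finset.range N, a i • f i‖ ≤ K * ‖x‖

lemma ext_nonneg {p : ℝ≥0∞} [Fact (1 ≤ p)] {v : Lp ℝ p muX} (h : 0 ≤ᵐ[muX] v) :
    0 ≤ᵐ[volume] extL p v := by
  have h1 : ∀ᵐ x ∂(volume : Measure ℝ), x ∈ Set.Ico (0 : ℝ) 1 → 0 ≤ v x := by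
    rw [← ae_restrict_iff' measurableSet_Ico]
    exact h
  filter_upwards [h1, extL_ae v] with x h2 h3
  rw [h3]
  by_cases hx : x ∈ Set.Ico (0 : ℝ) 1
  · rw [Set.indicator_of_mem hx]; exact h2 hx
  · rw [Set.indicator_of_notMem hx]; rfl

lemma comp_nonneg {p : ℝ≥0∞} [Fact (1 ≤ p)] {Z : Type*} [MeasurableSpace Z] {μ : Measure Z}
    {Ψ : ℝ → Z} (hΨ : MeasurePreserving Ψ muX μ) {v : Lp ℝ p μ} (h : 0 ≤ᵐ[μ] v) :
    0 ≤ᵐ[muX] Lp.compMeasurePreservingₗᵢ ℝ Ψ hΨ v := by
  have h1 : Lp.compMeasurePreservingₗᵢ ℝ Ψ hΨ v =ᵐ[muX] v ∘ Ψ :=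
    Lp.coeFn_compMeasurePreserving v hΨ
  have h2 : ∀ᵐ x ∂muX, 0 ≤ v (Ψ x) := hΨ.quasiMeasurePreserving.ae h
  filter_upwards [h1, h2] with x h3 h4
  rw [h3]
  exact h4

lemma sgn_sum {N : ℕ} (e : Fin (2 * N) ≃ Bool × Fin N) :
    ∑ m ∈ Finset.range (2 * N), sgn e m = 0 := by
  rw [Finset.sum_range]
  have h1 : ∀ m : Fin (2 * N), sgn e m = (fun q : Bool × Fin N => if q.1 then (1 : ℝ) else -1)
      (e m) := by
    intro m
    unfold sgn
    rw [dif_pos m.2]
  rw [Finset.sum_congr rfl fun m _ => h1 m,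
    Equiv.sum_comp e (fun q : Bool × Fin N => if q.1 then (1 : ℝ) else -1),
    Fintype.sum_prod_type]
  simp

/-- **Q1 of MP_c30670_an holds for every `1 ≤ p < ∞`.** For every `ε > 0` there is a
`(1+ε)`-basic sequence of non-negative functions in `L_p(ℝ)` (Lebesgue measure) and a bounded
linear operator `T : L_p(ℝ) → L_p(ℝ)` with `‖x‖ ≤ ‖T x‖` for all `x` (an isomorphic embedding)
whose range lies in the closed linear span of the sequence. -/
theorem result (p : ℝ≥0∞) [hp1 : Fact (1 ≤ p)] (hp : p ≠ ∞) (ε : ℝ) (hε : 0 < ε) :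
    ∃ f : ℕ → Lp ℝ p (volume : Measure ℝ),
      (∀ n, 0 ≤ᵐ[volume] f n) ∧ IsBasicWith (1 + ε) f ∧
      ∃ T : Lp ℝ p (volume : Measure ℝ) →L[ℝ] Lp ℝ p (volume : Measure ℝ),
        (∀ x, ‖x‖ ≤ ‖T x‖) ∧
        ∀ x, T x ∈ closure (Submodule.span ℝ (Set.range f) : Set (Lp ℝ p (volume : Measure ℝ))) := by
  classical
  have hP0 : p ≠ 0 := (zero_lt_one.trans_le hp1.out).ne'
  have hpr : 1 ≤ p.toReal := preal (P := p) hp
  have hpr0 : 0 < p.toReal := by linarith
  -- constants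
  obtain ⟨σ, hσdef⟩ : ∃ σ : ℝ, σ = ε / 2 := ⟨_, rfl⟩
  have hσ : 0 < σ := by rw [hσdef]; linarith
  obtain ⟨C, hCdef⟩ : ∃ C : ℝ, C = σ ^ (1 - p.toReal) * (2 + σ) + σ := ⟨_, rfl⟩
  have hC : 0 < C := by rw [hCdef]; positivity
  obtain ⟨c₀, hc₀def⟩ : ∃ c₀ : ℝ, c₀ = σ / (1 + σ + C) := ⟨_, rfl⟩
  have hc₀ : 0 < c₀ := by rw [hc₀def]; positivity
  obtain ⟨η, hηdef⟩ : ∃ η : ℕ → ℝ, ∀ n, η n = c₀ * (1 / 2) ^ (n + 1) := ⟨_, fun _ => rfl⟩
  have hη : ∀ n, 0 < η n := fun n => by rw [hηdef]; positivity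
  have hηsum : ∀ n B : ℕ, η n + ∑ j ∈ Finset.Ico (n + 1) B, η j ≤ c₀ := by
    intro n B
    have h1 : η n + ∑ j ∈ Finset.Ico (n + 1) B, η j ≤
        ∑ j ∈ Finset.range (max (n + 1) B), η j := by
      have h2 : insert n (Finset.Ico (n + 1) B) ⊆ Finset.range (max (n + 1) B) := by
        intro x hx
        rw [Finset.mem_insert, Finset.mem_Ico] at hx
        rw [Finset.mem_range]
        omega
      have h3 : n ∉ Finset.Ico (n + 1) B := by
        rw [Finset.mem_Ico]; omega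
      rw [← Finset.sum_insert h3]
      exact Finset.sum_le_sum_of_subset_of_nonneg h2 fun i _ _ => (hη i).le
    have h4 : ∑ j ∈ Finset.range (max (n + 1) B), η j ≤ c₀ := by
      have h5 : ∑ j ∈ Finset.range (max (n + 1) B), η j =
          (c₀ / 2) * ∑ j ∈ Finset.range (max (n + 1) B), (1 / 2 : ℝ) ^ j := by
        rw [Finset.mul_sum]
        refine Finset.sum_congr rfl fun j _ => ?_
        rw [hηdef, pow_succ]; ring
      rw [h5]
      have := sum_geometric_two_le (max (n + 1) B)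
      have h6 := mul_le_mul_of_nonneg_left this (by positivity : 0 ≤ c₀ / 2)
      linarith
    linarith
  -- the finite systems
  have hWS : ∀ n : ℕ, ∃ N D w e, WS p.toReal σ (η n * (1 / 2) ^ n) N D w e := fun n =>
    WS_exists hpr hσ (by have := hη n; positivity)
  choose N D w e hW using hWS
  have : ∀ n, NeZero (N n) := fun n => ⟨(hW n).1.ne'⟩
  obtain ⟨Ψ, hΨ⟩ := exists_mp (zeta N)
  have hk0norm : ‖k0L N p‖ ^ p.toReal = 1 := by
    rw [norm_pow hP0 hp _ (k0L_ae N)]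
    simp
  -- the assembled system
  let S : Sys p.toReal (Lp ℝ p (zeta N)) (Lp ℝ p (volume : Measure ℝ)) :=
    { J := (extL p).comp (Lp.compMeasurePreservingₗᵢ ℝ Ψ hΨ)
      e := eL p
      nf := by
        intro v S c
        have h := nf_ext hp (Lp.compMeasurePreservingₗᵢ ℝ Ψ hΨ v) S c
        rw [LinearIsometry.norm_map] at h
        exact h
      M := fun n => 2 * N n
      D := D
      w := w
      k0 := k0L N p
      k := kL N p e
      Mpos := fun n => by have := (hW n).1; omega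
      block := fun n c b => block_all N e hp n c b
      kn := fun n b => kn_all N e hp n b
      one_le := hpr
      σ := σ
      σpos := hσ
      wtr := fun n a K hK => (hW n).2.2.1 a K hK
      wsum := fun n a => (hW n).2.2.2.1 a
      η := η
      ηpos := hη
      k0ne := by
        intro h
        rw [h, norm_zero, Real.zero_rpow hpr0.ne'] at hk0norm
        exact zero_ne_one hk0norm }
  have hgr : ∀ (a : ℕ → ℝ) (m n : ℕ), m ≤ n →
      ‖∑ i ∈ Finset.range m, a i • S.F i‖ ≤ (1 + ε) * ‖∑ i ∈ Finset.range n, a i • S.F i‖ := by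
    intro a m n hmn
    have h := S.grun (ρ := σ) hσ.le (by
      intro n B
      show (1 + σ) * ∑ j ∈ Finset.Ico (n + 1) B, η j +
        (σ ^ (1 - p.toReal) * (2 + σ) + σ) * η n ≤ σ
      rw [← hCdef]
      have h1 := hηsum n B
      have h2 : 0 ≤ ∑ j ∈ Finset.Ico (n + 1) B, η j := Finset.sum_nonneg fun j _ => (hη j).le
      have h3 := hη n
      have h4 := mul_le_mul_of_nonneg_left h1 (by positivity : 0 ≤ 1 + σ + C)
      have h5 : (1 + σ + C) * c₀ = σ := by
        rw [hc₀def]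
        field_simp
      nlinarith [mul_nonneg hC.le h2, mul_nonneg hσ.le h3.le]) a m n hmn
    have e1 : 1 + S.σ + σ = 1 + ε := by
      show 1 + σ + σ = 1 + ε
      rw [hσdef]; ring
    rw [e1] at h
    exact h
  obtain ⟨ι₀⟩ := exists_emb (P := p) hp
  obtain ⟨Φ, hΦ1, hΦ2⟩ := S.embed (iota N p) (oneL p) (hL p) (fun n => (kap N p n)⁻¹) (sg N e)
    (iota_one N) (fun n => iota_h N e n) (sg_abs N e)
    (by
      intro n
      show ∑ m ∈ Finset.range (2 * N n), sg N e n m = 0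
      rw [← sgn_sum (e n)]
      refine Finset.sum_congr rfl fun m hm => ?_
      unfold sg
      rw [if_pos (Finset.mem_range.mp hm)])
    (fun n => inv_pos.mpr (kap_pos N p n))
    (by
      intro n
      have h1 := (hW n).2.2.2.2
      have h2 : S.nw n (sg N e n) = NW p.toReal (2 * N n) (D n) (w n) (sgn (e n)) := by
        apply NW_congr
        intro m hm
        unfold sg
        rw [if_pos hm]
      rw [h2]
      exact h1)
    (haar_dense hp)
  refine ⟨S.F, ?_, ⟨S.F_ne, fun x hx => grunblum S.F S.F_ne (1 + ε) hgr x hx, ?_⟩,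
    Φ.comp ι₀.toContinuousLinearMap, ?_, ?_⟩
  · -- non-negativity
    have hJ : ∀ v : Lp ℝ p (zeta N), 0 ≤ᵐ[zeta N] v → 0 ≤ᵐ[volume] S.J v := fun v hv =>
      ext_nonneg (comp_nonneg hΨ hv)
    have hk : ∀ n m, 0 ≤ᵐ[zeta N] (S.η n • S.k n m : Lp ℝ p (zeta N)) := by
      intro n m
      filter_upwards [Lp.coeFn_smul (S.η n) (S.k n m), kL_ae (P := p) N e n m] with z h1 h2
      rw [h1, Pi.smul_apply]
      have h3 : (S.k n m : Lp ℝ p (zeta N)) z = kf N p e n m z := h2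
      rw [h3, smul_eq_mul]
      exact mul_nonneg (S.ηpos n).le (kf_nonneg N p e n m z)
    have hf : ∀ n m, 0 ≤ᵐ[volume] S.f n m := by
      intro n m
      have h1 := ae_sum (P := p) (μ := (volume : Measure ℝ)) (Finset.range (S.D n))
        (fun i => S.e ⟨n, i⟩) (fun i => (Iq ⟨n, i⟩).indicator (fun _ => (1 : ℝ)))
        (fun i _ => eL_ae (P := p) ⟨n, i⟩) (fun i => S.w n m i)
      filter_upwards [Lp.coeFn_add (S.J (S.η n • S.k n m))
        (∑ i ∈ Finset.range (S.D n), S.w n m i • S.e ⟨n, i⟩), hJ _ (hk n m), h1] with x h2 h3 h4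
      have h5 : S.f n m = S.J (S.η n • S.k n m) +
        ∑ i ∈ Finset.range (S.D n), S.w n m i • S.e ⟨n, i⟩ := rfl
      rw [h5, h2, Pi.add_apply, h4]
      refine add_nonneg h3 (Finset.sum_nonneg fun i _ => mul_nonneg ((hW n).2.1 m i) ?_)
      exact Set.indicator_nonneg (fun _ _ => zero_le_one) x
    intro l
    rcases Nat.eq_zero_or_pos l with h0 | hpos
    · subst h0
      rw [S.F_zero]
      apply hJ
      filter_upwards [k0L_ae (P := p) N] with z hz
      have h3 : (S.k0 : Lp ℝ p (zeta N)) z = 1 := hz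
      rw [h3]
      exact zero_le_one
    · obtain ⟨⟨n, m⟩, h1, h2⟩ := S.exists_rep l hpos
      simp only at h1 h2
      rw [h2, S.F_St h1]
      exact hf n m
  · intro a x hx N'
    have h1 : Tendsto (fun n => (1 + ε) * ‖∑ i ∈ Finset.range n, a i • S.F i‖) atTop
        (𝓝 ((1 + ε) * ‖x‖)) := hx.norm.const_mul _
    apply ge_of_tendsto h1
    filter_upwards [eventually_ge_atTop N'] with n hn
    exact hgr a N' n hn
  · intro x
    calc ‖x‖ = ‖ι₀ x‖ := (ι₀.norm_map x).symm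
      _ ≤ ‖Φ (ι₀ x)‖ := hΦ1 _
  · intro x
    exact hΦ2 _

end Pool.Agent.Results.MP_c30670_an.NonnegBasic
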